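import Pool.Agent.Helper19_NGM.ASM
import Pool.Agent.Helper91_NGM.Wb

/-! Squad NGM (MP_c602ad_al), helper91: assembly for groups with the maximal condition and the ball
form `WB` of the hypothesis on the action. -/

set_option autoImplicit false

open scoped Classical Pointwise

universe u v

namespace Pool.Agent.NGM.H91

open H19

/-- quotients of subgroups inherit the maximal condition -/
theorem fg_quot {G : Type u} [Group G] (hfg : ∀ H : Subgroup G, H.FG) {N : Subgroup G} {Q : Type u}
    [Group Q] (φ : N →* Q) (hφ : Function.Surjective φ) (H : Subgroup Q) : H.FG := by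
  have h1 : Group.FG ((H.comap φ).map N.subtype) := (Group.fg_iff_subgroup_fg _).2 (hfg _)
  have h2 : Group.FG (H.comap φ) :=
    Group.fg_of_surjective
      (f := ((H.comap φ).equivMapOfInjective N.subtype N.subtype_injective).symm.toMonoidHom)
      ((H.comap φ).equivMapOfInjective N.subtype N.subtype_injective).symm.surjective
  have h3 : Group.FG H :=
    Group.fg_of_surjective (f := φ.subgroupComap H)
      (φ.subgroupComap_surjective_of_surjective H hφ)
  exact (Group.fg_iff_subgroup_fg H).1 h3

/-- THEOREM W0: groups with the maximal condition (from Gromov's theorem for these groups). -/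
theorem asmB (hGRO : GroStmt.{u}) {G : Type u} [Group G] {X : Type v} [MulAction G X]
    [FaithfulSMul G X] (hfg : ∀ H : Subgroup G, H.FG) (hW : WB G X) : AP G := by
  obtain ⟨s, hs, hsL, hbot⟩ := ctr G X hfg
  refine vpg G s hfg hs hbot fun L hL => ?_
  obtain ⟨hidx, hlim⟩ := hsL L hL
  have hsurj := QuotientGroup.mk'_surjective
    (L.subgroupOf (Subgroup.normalizer (L : Set G)))
  have hker : ∀ n : Subgroup.normalizer (L : Set G),
      QuotientGroup.mk' (L.subgroupOf (Subgroup.normalizer (L : Set G))) n = 1 ↔ (n : G) ∈ L := by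
    intro n
    rw [QuotientGroup.mk'_apply, QuotientGroup.eq_one_iff, Subgroup.mem_subgroupOf]
  refine ⟨Subgroup.normalizer (L : Set G), _ ⧸ L.subgroupOf (Subgroup.normalizer (L : Set G)),
    inferInstance, QuotientGroup.mk' _, hidx, hsurj, hker, ?_⟩
  have hQfg : ∀ H : Subgroup (_ ⧸ L.subgroupOf (Subgroup.normalizer (L : Set G))), H.FG :=
    fun H => fg_quot hfg _ hsurj H
  obtain ⟨K, hK⟩ := exists_genSet (hQfg ⊤)
  obtain ⟨D, hD⟩ := wbt G X L hlim hW _ _ _ hsurj hker K
  obtain ⟨D', hD'⟩ := core hK D fun e he => by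
    obtain ⟨R, hR⟩ := hD e he
    obtain ⟨A, hA1, _, hA2⟩ := hR 1
    exact ⟨A, hA1, hA2⟩
  exact hGRO _ hQfg K D' hK hD'

/-- both forms -/
theorem asmW (hGRO : GroStmt.{u}) {G : Type u} [Group G] {X : Type v} [MulAction G X]
    [FaithfulSMul G X]
    (h : (IsNoetherianRing (MonoidAlgebra ℤ G) ∧ WP G X) ∨
      ((∀ H : Subgroup G, H.FG) ∧ WB G X)) : AP G := by
  rcases h with ⟨h1, h2⟩ | ⟨h1, h2⟩
  · exact asm hGRO h1 h2
  · exact asmB hGRO h1 h2

end Pool.Agent.NGM.H91
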