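import Pool.Agent.NGM.StmtsE

/-! Row FRW of squad NGM (MP_c602ad_al), helper91: polynomially hyperfinite actions satisfy `W1`. -/

set_option autoImplicit false

open scoped Classical Pointwise
open Filter

universe u v

namespace Pool.Agent.NGM.H91

theorem frw : FrwStmt.{u, v} := by
  intro G _ X _ S C D h e he
  set a : ℝ := 2 * (1 + S.card) with ha
  have ha0 : 0 < a := by positivity
  obtain ⟨r1, hr1⟩ := exists_nat_ge (a ^ (D + 1) * C / e)
  obtain ⟨r, hrge, hgood⟩ := (frequently_atTop.1 h) (max r1 2)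
  have hr2 : 2 ≤ r := le_trans (le_max_right _ _) hrge
  have hr1' : r1 ≤ r := le_trans (le_max_left _ _) hrge
  have hrr : (0 : ℝ) < r := by
    have : 0 < r := by omega
    exact_mod_cast this
  refine ⟨1 / r, by positivity, {1}, fun F hF hbd => ?_⟩
  obtain ⟨F', hF'F, hcut, c, hc, hsize⟩ := hgood F
  -- F' is at least half of F
  have hFF : F.card = F'.card + (F \ F').card := by
    rw [add_comm, Finset.card_sdiff_add_card_eq_card hF'F]
  have hFpos : 0 < F.card := Finset.card_pos.2 hF
  have hhalf : F.card ≤ 2 * F'.card := by nlinarith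
  -- the parts
  set A : ℕ → Finset X := fun j => F'.filter fun x => c x = j with hA
  set J : Finset ℕ := F'.image c with hJ
  have hsumA : ∑ j ∈ J, (A j).card = F'.card := by
    rw [Finset.card_eq_sum_card_image c F']
  -- the boundaries are disjoint and contained in a small set
  have hdisj : ∀ i ∈ J, ∀ j ∈ J, i ≠ j → Disjoint (bd S (A i)) (bd S (A j)) := by
    intro i _ j _ hij
    rw [Finset.disjoint_left]
    intro x hx hx'
    have h1 := (Finset.mem_filter.1 (Finset.mem_filter.1 hx).1).2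
    have h2 := (Finset.mem_filter.1 (Finset.mem_filter.1 hx').1).2
    exact hij (h1.symm.trans h2)
  have hsub : J.biUnion (fun j => bd S (A j)) ⊆
      bd S F ∪ S.biUnion (fun s => (F \ F').image fun y => s⁻¹ • y) := by
    intro x hx
    obtain ⟨j, _, hx⟩ := Finset.mem_biUnion.1 hx
    obtain ⟨hxA, s, hs, hsx⟩ := Finset.mem_filter.1 hx
    obtain ⟨hxF', hcx⟩ := Finset.mem_filter.1 hxA
    by_cases h1 : s • x ∈ F
    · refine Finset.mem_union_right _ (Finset.mem_biUnion.2 ⟨s, hs, ?_⟩)
      have h2 : s • x ∉ F' := by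
        intro h2
        refine hsx (Finset.mem_filter.2 ⟨h2, ?_⟩)
        rw [hc x hxF' s hs h2, hcx]
      exact Finset.mem_image.2 ⟨s • x, Finset.mem_sdiff.2 ⟨h1, h2⟩, inv_smul_smul s x⟩
    · exact Finset.mem_union_left _ (Finset.mem_filter.2 ⟨hF'F hxF', s, hs, h1⟩)
  have hsumB : ∑ j ∈ J, (bd S (A j)).card ≤ (bd S F).card + S.card * (F \ F').card := by
    rw [← Finset.card_biUnion hdisj]
    refine (Finset.card_le_card hsub).trans ((Finset.card_union_le _ _).trans ?_)
    refine Nat.add_le_add_left ?_ _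
    refine Finset.card_biUnion_le.trans ?_
    refine (Finset.sum_le_sum fun s _ => Finset.card_image_le).trans ?_
    rw [Finset.sum_const, smul_eq_mul]
  have hmain : ∑ j ∈ J, ((bd S (A j)).card : ℝ) ≤ ∑ j ∈ J, a / r * (A j).card := by
    rw [← Finset.mul_sum]
    have h1 : (∑ j ∈ J, ((A j).card : ℝ)) = F'.card := by exact_mod_cast hsumA
    rw [h1]
    have h2 : (∑ j ∈ J, ((bd S (A j)).card : ℝ)) ≤ (bd S F).card + S.card * (F \ F').card := by
      exact_mod_cast hsumB
    have h3 : ((F \ F').card : ℝ) ≤ 1 / r * F.card := by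
      rw [one_div, inv_mul_eq_div, le_div_iff₀ hrr, mul_comm]
      exact_mod_cast hcut
    have h4 : (F.card : ℝ) ≤ 2 * F'.card := by exact_mod_cast hhalf
    have h5 : (0 : ℝ) ≤ 1 / r := by positivity
    calc (∑ j ∈ J, ((bd S (A j)).card : ℝ)) ≤ (bd S F).card + S.card * (F \ F').card := h2
      _ ≤ 1 / r * F.card + S.card * (1 / r * F.card) :=
          add_le_add hbd (mul_le_mul_of_nonneg_left h3 (Nat.cast_nonneg _))
      _ = (1 + S.card) * (1 / r) * F.card := by ring
      _ ≤ (1 + S.card) * (1 / r) * (2 * F'.card) :=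
          mul_le_mul_of_nonneg_left h4 (by positivity)
      _ = a / r * F'.card := by rw [ha]; ring
  have hJne : J.Nonempty := by
    refine Finset.Nonempty.image ?_ c
    rw [← Finset.card_pos]
    omega
  obtain ⟨j, hj, hle⟩ := Finset.exists_le_of_sum_le hJne hmain
  obtain ⟨x0, hx0, hcx0⟩ := Finset.mem_image.1 hj
  refine ⟨A j, ?_, ⟨x0, Finset.mem_filter.2 ⟨hx0, hcx0⟩⟩, ?_⟩
  · rw [Finset.singleton_smul, one_smul]
    exact (Finset.filter_subset _ _).trans hF'F
  · have hsz : ((A j).card : ℝ) ≤ C * (r : ℝ) ^ D := by exact_mod_cast hsize j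
    have hsub2 : D + 1 - 1 = D := by omega
    rw [hsub2]
    calc ((bd S (A j)).card : ℝ) ^ (D + 1) ≤ (a / r * (A j).card) ^ (D + 1) :=
          pow_le_pow_left₀ (Nat.cast_nonneg _) hle _
      _ = ((a / r) ^ (D + 1) * ((A j).card : ℝ) ^ D) * (A j).card := by
          rw [mul_pow, pow_succ ((A j).card : ℝ)]; ring
      _ ≤ ((a / r) ^ (D + 1) * ((A j).card : ℝ) ^ D) * (C * (r : ℝ) ^ D) :=
          mul_le_mul_of_nonneg_left hsz (by positivity)
      _ = (a ^ (D + 1) * C / r) * ((A j).card : ℝ) ^ D := by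
          rw [div_pow, pow_succ (r : ℝ)]
          field_simp
      _ ≤ e * ((A j).card : ℝ) ^ D := by
          refine mul_le_mul_of_nonneg_right ?_ (by positivity)
          rw [div_le_iff₀ hrr]
          have h6 : a ^ (D + 1) * C / e ≤ r := hr1.trans (by exact_mod_cast hr1')
          rw [div_le_iff₀ he] at h6
          linarith

end Pool.Agent.NGM.H91
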