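import Pool.Agent.NGM.StmtsE

/-! Row OGW of squad NGM (MP_c602ad_al), helper91: bounds for the growth of the orbits give `W2`. -/

set_option autoImplicit false

open scoped Classical Pointwise
open Filter

universe u v

namespace Pool.Agent.NGM.H91

variable {G : Type u} [Group G] {X : Type v} [MulAction G X]

theorem orb_succ (S : Finset G) (x : X) (n : ℕ) :
    S ^ (n + 1) • ({x} : Finset X) = S • (S ^ n • ({x} : Finset X)) := by
  rw [pow_succ', mul_smul]

theorem orb_mono {S : Finset G} (h1 : (1 : G) ∈ S) (x : X) {m n : ℕ} (h : m ≤ n) :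
    S ^ m • ({x} : Finset X) ⊆ S ^ n • ({x} : Finset X) :=
  Finset.smul_subset_smul_right (Finset.pow_subset_pow_right h1 h)

theorem orb_card_mono {S : Finset G} (h1 : (1 : G) ∈ S) (x : X) :
    Monotone fun n => (S ^ n • ({x} : Finset X)).card :=
  fun _ _ h => Finset.card_le_card (orb_mono h1 x h)

theorem orb_nonempty {S : Finset G} (h1 : (1 : G) ∈ S) (x : X) (n : ℕ) :
    (S ^ n • ({x} : Finset X)).Nonempty :=
  Finset.Nonempty.smul (Finset.Nonempty.pow ⟨1, h1⟩) (Finset.singleton_nonempty x)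

/-- the boundary of an orbit ball is in the last sphere -/
theorem bd_orb (S : Finset G) (h1 : (1 : G) ∈ S) (x : X) (n : ℕ) :
    (bd S (S ^ (n + 1) • ({x} : Finset X))).card + (S ^ n • ({x} : Finset X)).card ≤
      (S ^ (n + 1) • ({x} : Finset X)).card := by
  have hsub := orb_mono h1 x (Nat.le_succ n)
  have hdis : Disjoint (bd S (S ^ (n + 1) • ({x} : Finset X))) (S ^ n • ({x} : Finset X)) := by
    rw [Finset.disjoint_left]
    intro y hy hy'
    obtain ⟨_, s, hs, hsy⟩ := Finset.mem_filter.1 hy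
    refine hsy ?_
    rw [orb_succ]
    exact Finset.smul_mem_smul hs hy'
  rw [← Finset.card_union_of_disjoint hdis]
  refine Finset.card_le_card (Finset.union_subset (Finset.filter_subset _ _) hsub)

theorem orb_const {S : Finset G} (h1 : (1 : G) ∈ S) (x : X) {i : ℕ}
    (h : (S ^ (i + 1) • ({x} : Finset X)).card ≤ (S ^ i • ({x} : Finset X)).card) :
    ∀ j, i ≤ j → S ^ (j + 1) • ({x} : Finset X) = S ^ j • ({x} : Finset X) := by
  intro j hj
  induction hj with
  | refl => exact (Finset.eq_of_subset_of_card_le (orb_mono h1 x (Nat.le_succ i)) h).symm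
  | step _ ih =>
    rw [orb_succ, ih, ← orb_succ]
    exact ih

/-- exponential growth beats polynomials -/
theorem exp_beats (C D : ℕ) : ∀ᶠ r : ℕ in atTop, C * (4 * r ^ 2) ^ D < 2 ^ r := by
  have h := tendsto_pow_const_div_const_pow_of_one_lt (2 * D) (r := (2 : ℝ)) (by norm_num)
  have h2 : Tendsto (fun r : ℕ => ((C : ℝ) * 4 ^ D) * ((r : ℝ) ^ (2 * D) / 2 ^ r)) atTop
      (nhds ((C * 4 ^ D) * 0)) := h.const_mul _
  rw [mul_zero] at h2
  filter_upwards [h2.eventually (gt_mem_nhds one_pos)] with r hr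
  have hp : (0 : ℝ) < 2 ^ r := by positivity
  have h3 : (C : ℝ) * 4 ^ D * (r : ℝ) ^ (2 * D) < 2 ^ r := by
    rw [← mul_div_assoc, div_lt_one hp] at hr
    exact hr
  have h4 : ((C * (4 * r ^ 2) ^ D : ℕ) : ℝ) < ((2 ^ r : ℕ) : ℝ) := by
    push_cast
    calc (C : ℝ) * (4 * (r : ℝ) ^ 2) ^ D = (C : ℝ) * 4 ^ D * (r : ℝ) ^ (2 * D) := by
          rw [mul_pow, pow_mul]; ring
      _ < 2 ^ r := h3
  exact_mod_cast h4

/-- part 1 -/
theorem ogw1 (S : Finset G) (h1 : (1 : G) ∈ S) (C D : ℕ) (h : OG S X C D) :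
    W2 S X (2 * D + 1) := by
  intro e he
  obtain ⟨r0, hr0⟩ := eventually_atTop.1 (exp_beats C D)
  obtain ⟨r1, hr1⟩ := exists_nat_ge ((C : ℝ) * 4 ^ D / e)
  obtain ⟨T, hT, hgood⟩ := (frequently_atTop.1 h) ((max (max r0 r1) 1) ^ 2)
  set r := Nat.sqrt T with hr
  have hrge : max (max r0 r1) 1 ≤ r := Nat.le_sqrt'.2 hT
  have hr0' : r0 ≤ r := le_trans (le_trans (le_max_left _ _) (le_max_left _ _)) hrge
  have hr1' : r1 ≤ r := le_trans (le_trans (le_max_right _ _) (le_max_left _ _)) hrge
  have hrpos : 1 ≤ r := le_trans (le_max_right _ _) hrge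
  have hrT : r ^ 2 ≤ T := Nat.sqrt_le' T
  have hT4 : T ≤ 4 * r ^ 2 := by
    have h2 : T < (r + 1) ^ 2 := Nat.lt_succ_sqrt' T
    nlinarith
  refine ⟨S ^ T, fun x => ?_⟩
  set a : ℕ → ℕ := fun n => (S ^ n • ({x} : Finset X)).card with ha
  have hmono : Monotone a := orb_card_mono h1 x
  have haT : a T ≤ C * (4 * r ^ 2) ^ D :=
    (hgood x).trans (Nat.mul_le_mul_left _ (Nat.pow_le_pow_left hT4 D))
  -- a good step
  have hex : ∃ n, n < r ^ 2 ∧ r * (a (n + 1) - a n) ≤ a (n + 1) := by
    by_contra hno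
    push Not at hno
    have hstep : ∀ n, n ≤ r ^ 2 → (1 + 1 / (r : ℝ)) ^ n ≤ a n := by
      intro n
      induction n with
      | zero =>
        intro _
        have : 1 ≤ a 0 := Finset.card_pos.2 (orb_nonempty h1 x 0)
        rw [pow_zero]
        exact_mod_cast this
      | succ n ih =>
        intro hn
        have h2 := hno n (by omega)
        have h3 := ih (by omega)
        have h4 : a n ≤ a (n + 1) := hmono (Nat.le_succ n)
        have hrr : (0 : ℝ) < r := by exact_mod_cast hrpos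
        have h5 : (a (n + 1) : ℝ) < r * (a (n + 1) - a n) := by
          have : ((a (n + 1) : ℕ) : ℝ) < ((r * (a (n + 1) - a n) : ℕ) : ℝ) := by
            exact_mod_cast h2
          rwa [Nat.cast_mul, Nat.cast_sub h4] at this
        have h6 : (a n : ℝ) ≤ a (n + 1) := by exact_mod_cast h4
        have h7 : (1 + 1 / (r : ℝ)) * a n ≤ a (n + 1) := by
          have h8 : (a n : ℝ) / r ≤ a (n + 1) - a n := by
            rw [div_le_iff₀ hrr]
            nlinarith
          have h9 : (1 + 1 / (r : ℝ)) * a n = a n + a n / r := by ring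
          rw [h9]
          linarith
        rw [pow_succ']
        exact le_trans (mul_le_mul_of_nonneg_left h3 (by positivity)) h7
    have h2 := hstep (r ^ 2) le_rfl
    have h3 : (2 : ℝ) ^ r ≤ (1 + 1 / (r : ℝ)) ^ (r ^ 2) := by
      rw [sq, pow_mul]
      refine pow_le_pow_left₀ (by norm_num) ?_ r
      have hb := one_add_mul_le_pow (a := 1 / (r : ℝ)) (by
        have : (0 : ℝ) ≤ 1 / r := by positivity
        linarith) r
      have hrr : (r : ℝ) ≠ 0 := by
        have : (0 : ℝ) < r := by exact_mod_cast hrpos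
        exact this.ne'
      have e2 : 1 + (r : ℝ) * (1 / r) = 2 := by field_simp; norm_num
      rw [e2] at hb
      exact hb
    have h4 : (2 : ℝ) ^ r ≤ a T := by
      refine h3.trans (h2.trans ?_)
      exact_mod_cast hmono hrT
    have h5 : 2 ^ r ≤ a T := by exact_mod_cast h4
    exact absurd (hr0 r hr0') (by omega)
  obtain ⟨n, hn, hstep⟩ := hex
  have hbd := bd_orb S h1 x n
  refine ⟨S ^ (n + 1) • ({x} : Finset X), orb_mono h1 x (by omega), orb_nonempty h1 x _, ?_⟩
  set A := S ^ (n + 1) • ({x} : Finset X) with hA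
  have hAcard : a (n + 1) = A.card := rfl
  have hb1 : r * (bd S A).card ≤ A.card := by
    refine le_trans (Nat.mul_le_mul_left r ?_) hstep
    have : a n = (S ^ n • ({x} : Finset X)).card := rfl
    omega
  have hAle : A.card ≤ C * (4 * r ^ 2) ^ D := le_trans (hmono (by omega : n + 1 ≤ T)) haT
  have hrr : (0 : ℝ) < r := by exact_mod_cast hrpos
  have hb2 : ((bd S A).card : ℝ) ≤ (A.card : ℝ) / r := by
    rw [le_div_iff₀ hrr, mul_comm]
    exact_mod_cast hb1
  have hAle' : (A.card : ℝ) ≤ C * 4 ^ D * (r : ℝ) ^ (2 * D) := by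
    have : ((A.card : ℕ) : ℝ) ≤ ((C * (4 * r ^ 2) ^ D : ℕ) : ℝ) := by exact_mod_cast hAle
    refine this.trans (le_of_eq ?_)
    push_cast
    rw [mul_pow, pow_mul]
    ring
  have hsub : 2 * D + 1 - 1 = 2 * D := by omega
  rw [hsub]
  have hre : (C : ℝ) * 4 ^ D / e ≤ r := hr1.trans (by exact_mod_cast hr1')
  calc ((bd S A).card : ℝ) ^ (2 * D + 1) ≤ ((A.card : ℝ) / r) ^ (2 * D + 1) :=
        pow_le_pow_left₀ (Nat.cast_nonneg _) hb2 _
    _ = (A.card : ℝ) * ((A.card : ℝ) ^ (2 * D) / r ^ (2 * D + 1)) := by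
        rw [div_pow, pow_succ]; ring
    _ ≤ (C * 4 ^ D * (r : ℝ) ^ (2 * D)) * ((A.card : ℝ) ^ (2 * D) / r ^ (2 * D + 1)) :=
        mul_le_mul_of_nonneg_right hAle' (by positivity)
    _ = (C * 4 ^ D / r) * (A.card : ℝ) ^ (2 * D) := by
        rw [pow_succ]
        field_simp
    _ ≤ e * (A.card : ℝ) ^ (2 * D) := by
        refine mul_le_mul_of_nonneg_right ?_ (by positivity)
        rw [div_le_iff₀ hrr]
        rw [div_le_iff₀ he] at hre
        linarith

/-- part 2 -/
theorem ogw2 (S : Finset G) (h1 : (1 : G) ∈ S) (C : ℕ) (h : OG S X C 1) : W2 S X 2 := by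
  intro e he
  obtain ⟨r1, hr1⟩ := exists_nat_ge (8 * (C : ℝ) ^ 2 / e)
  obtain ⟨T, hT, hgood⟩ := (frequently_atTop.1 h) (r1 + 1)
  refine ⟨S ^ T, fun x => ?_⟩
  set a : ℕ → ℕ := fun n => (S ^ n • ({x} : Finset X)).card with ha
  have hmono : Monotone a := orb_card_mono h1 x
  have haT : a T ≤ C * T := by
    have := hgood x
    rwa [pow_one] at this
  have hex : ∃ n, T / 2 ≤ n ∧ n < T ∧ a (n + 1) ≤ a n + 2 * C := by
    by_contra hno
    push Not at hno
    have hstep : ∀ k, T / 2 + k ≤ T → (2 * C + 1) * k ≤ a (T / 2 + k) := by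
      intro k
      induction k with
      | zero => intro _; simp
      | succ k ih =>
        intro hk
        have h2 := hno (T / 2 + k) (by omega) (by omega)
        have h3 := ih (by omega)
        have h4 : T / 2 + (k + 1) = T / 2 + k + 1 := by omega
        rw [h4]
        nlinarith
    have h2 := hstep (T - T / 2) (by omega)
    have h3 : T / 2 + (T - T / 2) = T := by omega
    rw [h3] at h2
    have h4 : T ≤ 2 * (T - T / 2) := by omega
    have h5 : 1 ≤ T - T / 2 := by omega
    nlinarith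
  obtain ⟨n, hn1, hn2, hstep⟩ := hex
  have hbd := bd_orb S h1 x n
  refine ⟨S ^ (n + 1) • ({x} : Finset X), orb_mono h1 x (by omega), orb_nonempty h1 x _, ?_⟩
  set A := S ^ (n + 1) • ({x} : Finset X) with hA
  have e1 : a (n + 1) = A.card := rfl
  have e2 : a n = (S ^ n • ({x} : Finset X)).card := rfl
  have hb : (bd S A).card ≤ 2 * C := by omega
  by_cases hz : (bd S A).card = 0
  · rw [hz]
    norm_num
    positivity
  · -- strictly increasing up to n + 1
    have hstr : ∀ i, i ≤ n + 1 → i + 1 ≤ a i := by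
      intro i
      induction i with
      | zero => intro _; exact Finset.card_pos.2 (orb_nonempty h1 x 0)
      | succ i ih =>
        intro hi
        have h3 := ih (by omega)
        by_contra hcon
        have h4 : a (i + 1) ≤ a i := by omega
        have h5 := orb_const h1 x h4 n (by omega)
        have h6 : a (n + 1) = a n := congrArg Finset.card h5
        omega
    have hA1 : n + 1 + 1 ≤ A.card := hstr (n + 1) le_rfl
    have hA2 : (T : ℝ) / 2 ≤ A.card := by
      have h3 : T ≤ 2 * A.card := by omega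
      have h4 : (T : ℝ) ≤ 2 * A.card := by exact_mod_cast h3
      linarith
    have hb' : ((bd S A).card : ℝ) ≤ 2 * C := by exact_mod_cast hb
    have hTr : 8 * (C : ℝ) ^ 2 / e ≤ T := hr1.trans (by
      have : r1 ≤ T := by omega
      exact_mod_cast this)
    rw [div_le_iff₀ he] at hTr
    have h7 : ((bd S A).card : ℝ) ^ 2 ≤ (2 * C) ^ 2 :=
      pow_le_pow_left₀ (Nat.cast_nonneg _) hb' 2
    have h8 : e * ((T : ℝ) / 2) ≤ e * A.card := mul_le_mul_of_nonneg_left hA2 he.le
    simp only [show 2 - 1 = 1 from rfl, pow_one]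
    nlinarith

theorem ogw : OgwStmt.{u, v} := by
  intro G _ X _ S C h1
  exact ⟨fun D h => ogw1 S h1 C D h, fun h => ogw2 S h1 C h⟩

end Pool.Agent.NGM.H91
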