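import Pool.Agent.NGM.StmtsE

/-! Squad NGM (MP_c602ad_al), helper91: groups of bounded displacement with respect to the action of
a group of polynomial growth have orbits of polynomial growth. -/

set_option autoImplicit false

open scoped Classical Pointwise
open Filter

universe u v w

namespace Pool.Agent.NGM.H91

/-- every element of `G` moves every point by one of finitely many elements of `Λ` -/
theorem wob {G : Type u} [Group G] {X : Type v} [MulAction G X] {Λ : Type w} [Group Λ]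
    [MulAction Λ X] (h : ∀ g : G, ∃ F : Finset Λ, ∀ x : X, ∃ l ∈ F, g • x = l • x) (D : ℕ)
    (hΛ : ∀ F : Finset Λ, ∃ C : ℕ, ∃ᶠ n : ℕ in atTop, (F ^ n).card ≤ C * n ^ D) (S : Finset G) :
    ∃ C : ℕ, OG S X C D := by
  choose F hF using h
  obtain ⟨C, hC⟩ := hΛ (S.biUnion F)
  refine ⟨C, hC.mono fun n hn x => ?_⟩
  have hsub : ∀ n : ℕ, S ^ n • ({x} : Finset X) ⊆ (S.biUnion F) ^ n • ({x} : Finset X) := by
    intro n
    induction n with
    | zero => rw [pow_zero, pow_zero, one_smul, one_smul]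
    | succ n ih =>
      intro y hy
      rw [pow_succ', mul_smul] at hy ⊢
      obtain ⟨s, hs, z, hz, rfl⟩ := Finset.mem_smul.1 hy
      obtain ⟨l, hl, hle⟩ := hF s z
      rw [hle]
      exact Finset.smul_mem_smul (Finset.mem_biUnion.2 ⟨s, hs, hl⟩) (ih hz)
  refine (Finset.card_le_card (hsub n)).trans (le_trans ?_ hn)
  refine (Finset.card_smul_le).trans ?_
  simp

/-- virtually cyclic groups have linear growth -/
theorem vcyc_growth {Λ : Type w} [Group Λ] (z : Λ) (hz : (Subgroup.zpowers z).FiniteIndex)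
    (F : Finset Λ) : ∃ C : ℕ, ∃ᶠ n : ℕ in atTop, (F ^ n).card ≤ C * n ^ 1 := by
  have hfin : Finite (Λ ⧸ Subgroup.zpowers z) := Subgroup.finite_quotient_of_finiteIndex
  have := Fintype.ofFinite (Λ ⧸ Subgroup.zpowers z)
  -- coordinates: g = out (mk g) * z ^ j
  have hco : ∀ g : Λ, ∃ j : ℤ, g = (QuotientGroup.mk g : Λ ⧸ Subgroup.zpowers z).out * z ^ j := by
    intro g
    obtain ⟨h, hh⟩ := QuotientGroup.mk_out_eq_mul (Subgroup.zpowers z) g
    obtain ⟨j, hj⟩ := Subgroup.mem_zpowers_iff.1 h.2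
    refine ⟨-j, ?_⟩
    rw [hh, ← hj, zpow_neg]
    group
  choose k hk using hco
  -- bound for the generators
  obtain ⟨m, hm⟩ : ∃ m : ℕ, ∀ f ∈ F, ∀ q : Λ ⧸ Subgroup.zpowers z, |k (f * q.out)| ≤ m := by
    refine ⟨(F ×ˢ (Finset.univ : Finset (Λ ⧸ Subgroup.zpowers z))).sup
      fun p => (k (p.1 * p.2.out)).natAbs, fun f hf q => ?_⟩
    have h1 := Finset.le_sup (s := F ×ˢ (Finset.univ : Finset (Λ ⧸ Subgroup.zpowers z)))
      (f := fun p : Λ × (Λ ⧸ Subgroup.zpowers z) => (k (p.1 * p.2.out)).natAbs) (b := (f, q))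
      (Finset.mem_product.2 ⟨hf, Finset.mem_univ q⟩)
    have h2 : |k (f * q.out)| = ((k (f * q.out)).natAbs : ℤ) := Int.abs_eq_natAbs _
    rw [h2]
    exact_mod_cast h1
  set c := (k 1).natAbs with hc
  have key : ∀ n : ℕ, ∀ g ∈ F ^ n, ∃ (q : Λ ⧸ Subgroup.zpowers z) (j : ℤ),
      |j| ≤ n * m + c ∧ g = q.out * z ^ j := by
    intro n
    induction n with
    | zero =>
      intro g hg
      rw [pow_zero, Finset.mem_one] at hg
      subst hg
      refine ⟨QuotientGroup.mk 1, k 1, ?_, hk 1⟩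
      rw [Int.abs_eq_natAbs]
      push_cast
      simp [hc]
    | succ n ih =>
      intro g hg
      rw [pow_succ'] at hg
      obtain ⟨f, hf, g', hg', rfl⟩ := Finset.mem_mul.1 hg
      obtain ⟨q, j, hj, rfl⟩ := ih g' hg'
      refine ⟨QuotientGroup.mk (f * q.out), k (f * q.out) + j, ?_, ?_⟩
      · refine (abs_add_le _ _).trans ?_
        have := hm f hf q
        push_cast
        linarith
      · rw [← mul_assoc, zpow_add, ← mul_assoc, ← hk (f * q.out)]
  refine ⟨Fintype.card (Λ ⧸ Subgroup.zpowers z) * (2 * m + 2 * c + 1), ?_⟩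
  refine Filter.Eventually.frequently ?_
  filter_upwards [eventually_ge_atTop 1] with n hn
  have hsub : F ^ n ⊆ ((Finset.univ : Finset (Λ ⧸ Subgroup.zpowers z)) ×ˢ
      (Finset.Icc (-((n * m + c : ℕ) : ℤ)) ((n * m + c : ℕ) : ℤ))).image
        fun p => p.1.out * z ^ p.2 := by
    intro g hg
    obtain ⟨q, j, hj, rfl⟩ := key n g hg
    refine Finset.mem_image.2 ⟨(q, j), Finset.mem_product.2 ⟨Finset.mem_univ _, ?_⟩, rfl⟩
    rw [Finset.mem_Icc]
    push_cast
    exact abs_le.1 hj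
  refine (Finset.card_le_card hsub).trans (Finset.card_image_le.trans ?_)
  rw [Finset.card_product, Finset.card_univ, Int.card_Icc, pow_one, mul_assoc]
  refine Nat.mul_le_mul_left _ ?_
  have h1 : ((n * m + c : ℕ) : ℤ) + 1 - -((n * m + c : ℕ) : ℤ) = ((2 * (n * m + c) + 1 : ℕ) : ℤ) := by
    push_cast
    ring
  rw [h1, Int.toNat_natCast]
  nlinarith

end Pool.Agent.NGM.H91
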